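import Pool.Agent.Lib.MP_228259_lc.A.C3

/-!
Exponential closedness (the frozen statement S14477, word for word) for varieties of codimension at
most three in the `2 n`-dimensional group, for every `n`: there are at least `2 n - 3` coordinates
which are algebraically independent on the variety. For `n ≤ 3` this extra hypothesis always holds
(`up_to_three`).
-/

set_option autoImplicit false

namespace Pool.Agent.Results.MP_228259_lc.CodimensionThree

theorem result :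
    ∀ (n : ℕ) (P : Ideal (MvPolynomial (Fin n ⊕ Fin n) ℂ)) (V : Set (Fin n ⊕ Fin n → ℂ)),
      P.IsPrime →
      V = {p | (∀ f ∈ P, MvPolynomial.eval p f = 0) ∧ ∀ j : Fin n, p (Sum.inr j) ≠ 0} →
      (∀ m : Fin n → ℤ, m ≠ 0 → ∀ c : ℂ,
          ∃ p ∈ V, (∑ j : Fin n, (m j : ℂ) * p (Sum.inl j)) ≠ c) →
      (∀ m : Fin n → ℤ, m ≠ 0 → ∀ c : ℂ,
          ∃ p ∈ V, (∏ j : Fin n, p (Sum.inr j) ^ (m j)) ≠ c) →
      (∀ k : ℕ, 1 ≤ k → k ≤ n → ∀ M : Matrix (Fin k) (Fin n) ℤ,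
          ∃ J : Finset (Fin k ⊕ Fin k),
            (M.map (Int.cast : ℤ → ℚ)).rank ≤ J.card ∧
            ∀ f : MvPolynomial (Fin k ⊕ Fin k) ℂ, f.vars ⊆ J →
              (∀ p ∈ V, MvPolynomial.eval
                  (Sum.elim (fun i : Fin k => ∑ j : Fin n, (M i j : ℂ) * p (Sum.inl j))
                            (fun i : Fin k => ∏ j : Fin n, p (Sum.inr j) ^ (M i j))) f = 0) →
              f = 0) →
      (∃ J : Finset (Fin n ⊕ Fin n), 2 * n ≤ J.card + 3 ∧
          ∀ f : MvPolynomial (Fin n ⊕ Fin n) ℂ, f.vars ⊆ J →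
            (∀ p ∈ V, MvPolynomial.eval p f = 0) → f = 0) →
      ∃ z : Fin n → ℂ, ∀ f ∈ P,
        MvPolynomial.eval (Sum.elim z (fun i : Fin n => Complex.exp (z i))) f = 0 := by
  intro n P V hP hV hadd hmul hrot hcod
  exact XA.frozen_codim_three n P V hP hV hadd hmul hrot hcod

/-- the frozen statement S14477 for `n ≤ 3`, without any further hypothesis -/
theorem up_to_three :
    ∀ (n : ℕ) (P : Ideal (MvPolynomial (Fin n ⊕ Fin n) ℂ)) (V : Set (Fin n ⊕ Fin n → ℂ)),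
      n ≤ 3 →
      P.IsPrime →
      V = {p | (∀ f ∈ P, MvPolynomial.eval p f = 0) ∧ ∀ j : Fin n, p (Sum.inr j) ≠ 0} →
      (∀ m : Fin n → ℤ, m ≠ 0 → ∀ c : ℂ,
          ∃ p ∈ V, (∑ j : Fin n, (m j : ℂ) * p (Sum.inl j)) ≠ c) →
      (∀ m : Fin n → ℤ, m ≠ 0 → ∀ c : ℂ,
          ∃ p ∈ V, (∏ j : Fin n, p (Sum.inr j) ^ (m j)) ≠ c) →
      (∀ k : ℕ, 1 ≤ k → k ≤ n → ∀ M : Matrix (Fin k) (Fin n) ℤ,
          ∃ J : Finset (Fin k ⊕ Fin k),
            (M.map (Int.cast : ℤ → ℚ)).rank ≤ J.card ∧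
            ∀ f : MvPolynomial (Fin k ⊕ Fin k) ℂ, f.vars ⊆ J →
              (∀ p ∈ V, MvPolynomial.eval
                  (Sum.elim (fun i : Fin k => ∑ j : Fin n, (M i j : ℂ) * p (Sum.inl j))
                            (fun i : Fin k => ∏ j : Fin n, p (Sum.inr j) ^ (M i j))) f = 0) →
              f = 0) →
      ∃ z : Fin n → ℂ, ∀ f ∈ P,
        MvPolynomial.eval (Sum.elim z (fun i : Fin n => Complex.exp (z i))) f = 0 := by
  intro n P V hn hP hV hadd hmul hrot
  exact XA.frozen_le_three n hn P V hP hV hadd hmul hrot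

end Pool.Agent.Results.MP_228259_lc.CodimensionThree
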