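import Pool.Agent.Lib.MP_228259_lc.A.NDF

/-!
Exponential closedness (the frozen statement S14477, word for word, all `n`, `V` of any dimension) for
the varieties `V` such that the ideal of the projection of `V` to `ℂⁿ` is generated by one polynomial
`p` (`p = 0`: the projection is dominant; `p ≠ 0`: the projection is a hypersurface), where, if
`p ≠ 0`, some rational direction `q`, in which the top form of `p` is not constant, is orthogonal to
all integer vectors `b` such that the monomial `y ^ b` is algebraic over `ℂ(x)` on `V`.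
-/

set_option autoImplicit false

namespace Pool.Agent.Results.MP_228259_lc.HypersurfaceProjection

theorem result :
    ∀ (n : ℕ) (P : Ideal (MvPolynomial (Fin n ⊕ Fin n) ℂ)) (V : Set (Fin n ⊕ Fin n → ℂ)),
      P.IsPrime →
      V = {p | (∀ f ∈ P, MvPolynomial.eval p f = 0) ∧ ∀ j : Fin n, p (Sum.inr j) ≠ 0} →
      (∀ m : Fin n → ℤ, m ≠ 0 → ∀ c : ℂ,
          ∃ p ∈ V, (∑ j : Fin n, (m j : ℂ) * p (Sum.inl j)) ≠ c) →
      (∀ m : Fin n → ℤ, m ≠ 0 → ∀ c : ℂ,
          ∃ p ∈ V, (∏ j : Fin n, p (Sum.inr j) ^ (m j)) ≠ c) →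
      (∀ k : ℕ, 1 ≤ k → k ≤ n → ∀ M : Matrix (Fin k) (Fin n) ℤ,
          ∃ J : Finset (Fin k ⊕ Fin k),
            (M.map (Int.cast : ℤ → ℚ)).rank ≤ J.card ∧
            ∀ f : MvPolynomial (Fin k ⊕ Fin k) ℂ, f.vars ⊆ J →
              (∀ p ∈ V, MvPolynomial.eval
                  (Sum.elim (fun i : Fin k => ∑ j : Fin n, (M i j : ℂ) * p (Sum.inl j))
                            (fun i : Fin k => ∏ j : Fin n, p (Sum.inr j) ^ (M i j))) f = 0) →
              f = 0) →
      -- `g` generates the ideal of the projection of `V` to `ℂⁿ`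
      ∀ g : MvPolynomial (Fin n) ℂ,
      (∀ G : MvPolynomial (Fin n) ℂ,
        (∀ v ∈ V, MvPolynomial.eval (fun j => v (Sum.inl j)) G = 0) ↔ g ∣ G) →
      -- if `g ≠ 0`: the top form of `g` is not constant in some rational direction `q`, which is
      -- orthogonal to all `b` such that `y ^ b` is algebraic over `ℂ(x)` on `V`
      (g ≠ 0 → ∃ q : Fin n → ℚ,
        ∑ j, MvPolynomial.C (q j : ℂ) *
          MvPolynomial.pderiv j (MvPolynomial.homogeneousComponent g.totalDegree g) ≠ 0 ∧
        ∀ b : Fin n → ℤ, (∃ G : Polynomial (MvPolynomial (Fin n) ℂ), (∃ i, ¬ g ∣ G.coeff i) ∧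
          ∀ v ∈ V, (G.map (MvPolynomial.eval fun j => v (Sum.inl j))).eval
            (∏ j, v (Sum.inr j) ^ b j) = 0) → ∑ j, (b j : ℚ) * q j = 0) →
      ∃ z : Fin n → ℂ, ∀ f ∈ P,
        MvPolynomial.eval (Sum.elim z (fun i : Fin n => Complex.exp (z i))) f = 0 := by
  intro n P V hP hV hadd hmul hrot g hg hq
  exact XA.principal_ec n P V hP hV hadd hmul hrot g hg hq

end Pool.Agent.Results.MP_228259_lc.HypersurfaceProjection
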